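import Pool.Agent.Work.MP_db9399_cg.Interface2

/-!
# MP_db9399, SWG, block AN, sub-block AN2: all coins with `q` more tests (helper75)
-/

set_option autoImplicit false

namespace Pool.Agent.Work.MP_db9399_sg.helper75

open Finset Classical
open Pool.Agent.Work.MP_db9399_all (nb)
open Pool.Agent.Work.MP_db9399_cg

universe u

/-- A34 with `q` more tests. -/
theorem a34x (h34 : Stmt_A34.{u}) (a : ℝ) (m q : ℕ) (ha : 0 < a) (ha1 : a ≤ 1 / 100) :
    ∃ d0 : ℕ, ∀ {V : Type u} [Fintype V] (G G1 : SimpleGraph V) (d : ℕ) (κ : ℝ)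
      (θ x1 : V → V → ℝ) (h : Fin m → V → V → ℝ) (cc : V → ℝ) (h2 : Fin q → V → V → ℝ),
      d0 ≤ d → Edat G G1 d a κ θ x1 h cc → (∀ j v w, 0 ≤ h2 j v w) → (∀ j v w, h2 j v w ≤ 1) →
      ∃ O Z : V → V → Prop, (∀ v w, G1.Adj v w → (O v w ↔ ¬ O w v)) ∧
        (∀ v w, O v w → G1.Adj v w) ∧ (∀ v w, Z v w → Z w v) ∧ (∀ v w, Z v w → G1.Adj v w) ∧
        (∀ v, CoinV G1 d κ θ x1 h cc O Z v) ∧ (∀ v, CoinP G G1 d a κ Z v) ∧
        (∀ j s v, |∑ w ∈ sdc O Z s v, h2 j v w -
          (∑ w ∈ nb G1 v, (1 - θ v w) * h2 j v w) / 2| ≤ √d * Real.log d) ∧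
        (∀ j s v, |∑ w ∈ sdz O Z s v, h2 j v w - (∑ w ∈ nb G1 v, θ v w * h2 j v w) / 2| ≤
          √(κ * d) * Real.log d) := by
  obtain ⟨d0, H⟩ := h34 a (m + q) ha ha1
  refine ⟨d0, ?_⟩
  intro V _ G G1 d κ θ x1 h cc h2 hd hE h20 h21
  have hE' : Edat G G1 d a κ θ x1 (Fin.append h h2) cc :=
    { reg := hE.reg, sub := hE.sub, k1 := hE.k1, k2 := hE.k2, th := hE.th, th1 := hE.th1,
      th2 := hE.th2, y0 := hE.y0, y1 := hE.y1, ys := hE.ys, c1 := hE.c1
      h0 := fun j v w => by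
        refine Fin.addCases (fun i => ?_) (fun i => ?_) j
        · rw [Fin.append_left]
          exact hE.h0 i v w
        · rw [Fin.append_right]
          exact h20 i v w
      h1 := fun j v w => by
        refine Fin.addCases (fun i => ?_) (fun i => ?_) j
        · rw [Fin.append_left]
          exact hE.h1 i v w
        · rw [Fin.append_right]
          exact h21 i v w }
  obtain ⟨O, Z, o1, o2, z1, z2, cV, cP⟩ := H G G1 d κ θ x1 (Fin.append h h2) cc hd hE'
  refine ⟨O, Z, o1, o2, z1, z2, fun v => ⟨fun j s => ?_, fun j s => ?_, (cV v).iii⟩, cP,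
    fun j s v => ?_, fun j s v => ?_⟩
  · have := (cV v).i (Fin.castAdd q j) s
    rwa [Fin.append_left] at this
  · have := (cV v).ii (Fin.castAdd q j) s
    rwa [Fin.append_left] at this
  · have := (cV v).i (Fin.natAdd m j) s
    rwa [Fin.append_right] at this
  · have := (cV v).ii (Fin.natAdd m j) s
    rwa [Fin.append_right] at this

end Pool.Agent.Work.MP_db9399_sg.helper75
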